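import Pool.Agent.helper36.MP.SpecN

/-!
# TGP: perturbation of the exact solution
-/

set_option autoImplicit false

open Complex Metric Set Filter Topology MeasureTheory

noncomputable section

namespace MPS

theorem TGP_int (hMI : MI_stmt) (a : ℂ) (R : ℝ) (hR : 0 ≤ R) :
    IntegrableOn (fun z : ℂ => 1 / ‖z - a‖) (ball (0 : ℂ) R) ∧
      ∫ z in ball (0 : ℂ) R, 1 / ‖z - a‖ ≤ 2 * Real.pi * (R + ‖a‖) := by
  have hs : ball (0 : ℂ) R ⊆ ball a (R + ‖a‖) := by
    refine ball_subset_ball' ?_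
    rw [dist_eq_norm, zero_sub, norm_neg]
  have h1 := hMI.2 a (R + ‖a‖) (by positivity)
  refine ⟨h1.1.mono_set hs, ?_⟩
  rw [← h1.2]
  refine setIntegral_mono_set h1.1 ?_ ?_
  · exact Filter.Eventually.of_forall fun z => by positivity
  · exact LE.le.eventuallyLE hs

theorem TGP (hMI : MI_stmt) : TGP_stmt := by
  intro n k _ c b g R hn hb hc hR hg η hη
  set S : ℂ := ∑ i, g i with hS
  set f : ZMod k → ℂ := fun i => fd n (b i) with hf
  -- the constant
  set K : ℝ := (∑ i, ‖1 - 1 / f i‖ * (2 * Real.pi * (R + ‖b (i + 1)‖))) +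
    ‖∑ i, 1 / f i‖ * (4 * Real.pi * R) with hK
  have hR0 : (0 : ℝ) ≤ R := by linarith
  have hK0 : 0 ≤ K := by
    have := Real.pi_pos
    have h1 : ∀ i ∈ (Finset.univ : Finset (ZMod k)),
        0 ≤ ‖1 - 1 / f i‖ * (2 * Real.pi * (R + ‖b (i + 1)‖)) := fun i _ => by positivity
    have h2 := Finset.sum_nonneg h1
    positivity
  have key : ∀ ν : ℂ, ‖ν‖ * K ≤ η → S + k * ν ≠ 0 →
      ∃ g' : ZMod k → ℂ, (∑ i, g' i ≠ 0) ∧
      ∫ z in ball (0 : ℂ) R, ‖er n c b g' z‖ ≤ 4 * Real.pi * R * ‖S‖ + η := by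
    intro ν hν hne
    refine ⟨fun i => g i + ν, ?_, ?_⟩
    · rw [Finset.sum_add_distrib, ← hS, Finset.sum_const, Finset.card_univ, ZMod.card,
        nsmul_eq_mul]
      exact hne
    · -- pointwise bound
      have hshift : ∑ i, g (i + 1) = S := by
        rw [hS]
        exact Equiv.sum_comp (Equiv.addRight (1 : ZMod k)) g
      have hpt : ∀ z : ℂ, ‖er n c b (fun i => g i + ν) z‖ ≤
          (∑ i, (‖ν‖ * ‖1 - 1 / f i‖) * (1 / ‖z - b (i + 1)‖)) +
            (‖S‖ + ‖ν‖ * ‖∑ i, 1 / f i‖) * (1 / ‖z - c‖) := by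
        intro z
        have e1 : er n c b (fun i => g i + ν) z =
            (∑ i, (ν * (1 - 1 / f i)) / (z - b (i + 1))) +
              (S + ν * ∑ i, 1 / f i) / (z - c) := by
          unfold er
          congr 1
          · refine Finset.sum_congr rfl fun i _ => ?_
            congr 1
            simp only
            rw [hg i]
            simp only [hf]
            ring
          · congr 1
            rw [← hshift, Finset.mul_sum, ← Finset.sum_add_distrib]
            refine Finset.sum_congr rfl fun i _ => ?_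
            rw [hg i]
            simp only [hf]
            ring
        rw [e1]
        refine (norm_add_le _ _).trans ?_
        refine add_le_add ?_ ?_
        · refine (norm_sum_le _ _).trans ?_
          refine Finset.sum_le_sum fun i _ => ?_
          rw [norm_div, norm_mul, mul_one_div]
        · rw [norm_div, mul_one_div]
          refine div_le_div_of_nonneg_right ?_ (norm_nonneg _)
          refine (norm_add_le _ _).trans ?_
          rw [norm_mul]
      have hint : ∀ i : ZMod k, IntegrableOn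
          (fun z : ℂ => (‖ν‖ * ‖1 - 1 / f i‖) * (1 / ‖z - b (i + 1)‖)) (ball (0 : ℂ) R) :=
        fun i => (TGP_int hMI (b (i + 1)) R hR0).1.const_mul _
      have hint1 : IntegrableOn (fun z : ℂ => ∑ i, (‖ν‖ * ‖1 - 1 / f i‖) * (1 / ‖z - b (i + 1)‖))
          (ball (0 : ℂ) R) := integrable_finsetSum _ fun i _ => hint i
      have hint2 : IntegrableOn (fun z : ℂ => (‖S‖ + ‖ν‖ * ‖∑ i, 1 / f i‖) * (1 / ‖z - c‖))
          (ball (0 : ℂ) R) := (TGP_int hMI c R hR0).1.const_mul _
      have h1 : ∫ z in ball (0 : ℂ) R, ‖er n c b (fun i => g i + ν) z‖ ≤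
          ∫ z in ball (0 : ℂ) R, ((∑ i, (‖ν‖ * ‖1 - 1 / f i‖) * (1 / ‖z - b (i + 1)‖)) +
            (‖S‖ + ‖ν‖ * ‖∑ i, 1 / f i‖) * (1 / ‖z - c‖)) := by
        refine integral_mono_of_nonneg ?_ ?_ ?_
        · exact Filter.Eventually.of_forall fun z => norm_nonneg _
        · exact hint1.add hint2
        · exact Filter.Eventually.of_forall hpt
      have h2 : ∫ z in ball (0 : ℂ) R, ((∑ i, (‖ν‖ * ‖1 - 1 / f i‖) * (1 / ‖z - b (i + 1)‖)) +
            (‖S‖ + ‖ν‖ * ‖∑ i, 1 / f i‖) * (1 / ‖z - c‖)) =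
          (∑ i, (‖ν‖ * ‖1 - 1 / f i‖) * ∫ z in ball (0 : ℂ) R, (1 / ‖z - b (i + 1)‖)) +
            (‖S‖ + ‖ν‖ * ‖∑ i, 1 / f i‖) * ∫ z in ball (0 : ℂ) R, (1 / ‖z - c‖) := by
        rw [integral_add hint1 hint2, integral_finsetSum _ (fun i _ => hint i)]
        congr 1
        · refine Finset.sum_congr rfl fun i _ => ?_
          rw [integral_const_mul]
        · rw [integral_const_mul]
      have h3 : (∑ i, (‖ν‖ * ‖1 - 1 / f i‖) * ∫ z in ball (0 : ℂ) R, (1 / ‖z - b (i + 1)‖)) ≤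
          ‖ν‖ * ∑ i, ‖1 - 1 / f i‖ * (2 * Real.pi * (R + ‖b (i + 1)‖)) := by
        rw [Finset.mul_sum]
        refine Finset.sum_le_sum fun i _ => ?_
        rw [mul_assoc]
        refine mul_le_mul_of_nonneg_left ?_ (norm_nonneg _)
        exact mul_le_mul_of_nonneg_left (TGP_int hMI (b (i + 1)) R hR0).2 (norm_nonneg _)
      have h4 : (‖S‖ + ‖ν‖ * ‖∑ i, 1 / f i‖) * ∫ z in ball (0 : ℂ) R, (1 / ‖z - c‖) ≤
          (‖S‖ + ‖ν‖ * ‖∑ i, 1 / f i‖) * (4 * Real.pi * R) := by
        refine mul_le_mul_of_nonneg_left ?_ (by positivity)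
        refine (TGP_int hMI c R hR0).2.trans ?_
        have := Real.pi_pos
        nlinarith
      rw [h2] at h1
      calc ∫ z in ball (0 : ℂ) R, ‖er n c b (fun i => g i + ν) z‖
          ≤ ‖ν‖ * (∑ i, ‖1 - 1 / f i‖ * (2 * Real.pi * (R + ‖b (i + 1)‖))) +
            (‖S‖ + ‖ν‖ * ‖∑ i, 1 / f i‖) * (4 * Real.pi * R) := by linarith
        _ = 4 * Real.pi * R * ‖S‖ + ‖ν‖ * K := by rw [hK]; ring
        _ ≤ 4 * Real.pi * R * ‖S‖ + η := by linarith
  -- the choice of the perturbation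
  set t : ℝ := η / (2 * (K + 1)) with ht
  have ht0 : 0 < t := by positivity
  have htK : 2 * t * K ≤ η := by
    rw [ht]
    have : 2 * (η / (2 * (K + 1))) * K = η * (K / (K + 1)) := by
      field_simp
    rw [this]
    have h2 : K / (K + 1) ≤ 1 := by
      rw [div_le_one (by positivity)]
      linarith
    nlinarith
  have hk : (k : ℂ) ≠ 0 := Nat.cast_ne_zero.2 (NeZero.ne k)
  by_cases h0 : S + k * (t : ℂ) = 0
  · refine key ((2 * t : ℝ) : ℂ) ?_ ?_
    · rw [Complex.norm_real, Real.norm_eq_abs, abs_of_pos (by positivity)]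
      exact htK
    · intro h1
      have h2 : (k : ℂ) * t = 0 := by
        push_cast at h1
        linear_combination h1 - h0
      rcases mul_eq_zero.1 h2 with h3 | h3
      · exact hk h3
      · rw [Complex.ofReal_eq_zero] at h3
        exact ht0.ne' h3
  · refine key ((t : ℝ) : ℂ) ?_ h0
    rw [Complex.norm_real, Real.norm_eq_abs, abs_of_pos ht0]
    nlinarith

end MPS
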